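import Pool.Agent.TTC.Stmts

/-!
# Squad TTC, row CNT: few c with few good primes
-/

set_option autoImplicit false

namespace Pool.Agent.TTC.H30

open Polynomial Pool.Agent.TTC

/-- the set of Rankin's trick -/
def T (B : ℝ) (n : ℕ) : Set ℕ := {m : ℕ | 1 ≤ m ∧ (m : ℝ) ≤ B ∧ ∀ p : ℕ, p.Prime → p ∣ m → p ∣ n}

theorem T_finite (B : ℝ) (n : ℕ) : (T B n).Finite := by
  refine (Set.finite_Iic ⌊B⌋₊).subset ?_
  intro m hm
  exact Nat.le_floor hm.2.1

theorem cnt (h1 : RnkStmt) (h2 : DscStmt) (h3 : BndStmt) : CntStmt := by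
  classical
  intro δ hδ
  obtain ⟨A, hA, hB⟩ := h3
  have hε : 0 < δ / 2 := by positivity
  obtain ⟨C0, hC0, hR⟩ := h1 (A + δ / 2) (δ / 2) (by positivity) hε
  refine ⟨δ / 2, 4 + 8 * C0, hε, by positivity, ?_⟩
  intro H a hH hbox hwr
  have hH1 : (1 : ℝ) ≤ (H : ℝ) := by exact_mod_cast hH
  have hH0 : (0 : ℝ) < (H : ℝ) := by linarith
  set B : ℝ := (A + δ / 2) * (H : ℝ) ^ (A + δ / 2) with hBdef
  set w : ℕ := (wr a).natAbs with hw
  have hw1 : 1 ≤ w := Nat.one_le_iff_ne_zero.mpr (Int.natAbs_ne_zero.mpr hwr)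
  set R : ℕ := ⌊(H : ℝ) ^ (δ / 2)⌋₊ with hRdef
  have hHe : (0 : ℝ) ≤ (H : ℝ) ^ (δ / 2) := by positivity
  -- bounds
  have hbd1 : ∀ x : ℝ, x ≤ A * (H : ℝ) ^ A → x ≤ B := by
    intro x hx
    refine hx.trans ?_
    have h4 : (H : ℝ) ^ A ≤ (H : ℝ) ^ (A + δ / 2) :=
      Real.rpow_le_rpow_of_exponent_le hH1 (by linarith)
    have h5 : (0 : ℝ) ≤ (H : ℝ) ^ (A + δ / 2) := by positivity
    calc A * (H : ℝ) ^ A ≤ A * (H : ℝ) ^ (A + δ / 2) := by gcongr
      _ ≤ (A + δ / 2) * (H : ℝ) ^ (A + δ / 2) := by gcongr; linarith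
  have hwb : (w : ℝ) ≤ A * (H : ℝ) ^ A := by
    have h4 := (hB H a 0 hH hbox (by simp)).2
    rw [hw, Nat.cast_natAbs, Int.cast_abs]
    exact h4
  -- the Finsets
  let D : ℤ → Finset ℤ := fun m => (h2 a m).1.toFinset
  have hDcard : ∀ m, (D m).card ≤ 4 := by
    intro m
    have h4 := (h2 a m).2
    rwa [Set.ncard_eq_toFinset_card _ (h2 a m).1] at h4
  let TT : ℕ → Finset ℕ := fun r => (T_finite B (w * r)).toFinset
  let U : Finset ℤ := D 0 ∪ (Finset.Icc 1 R).biUnion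
    (fun r => (TT r).biUnion (fun m => D (m : ℤ) ∪ D (-(m : ℤ))))
  have hsub : {c : ℤ | |c| ≤ (H : ℤ) ^ 5 ∧ (discr (qp a c) = 0 ∨
      ((∏ p ∈ gp a c, p : ℕ) : ℝ) < (H : ℝ) ^ (δ / 2))} ⊆ (U : Set ℤ) := by
    intro c hc
    obtain ⟨hc1, hc2⟩ := hc
    rw [Finset.mem_coe]
    by_cases h0 : discr (qp a c) = 0
    · refine Finset.mem_union_left _ ?_
      simp only [D, Set.Finite.mem_toFinset, Set.mem_ofPred_eq]
      exact h0
    · rcases hc2 with hc2 | hc2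
      · exact absurd hc2 h0
      refine Finset.mem_union_right _ ?_
      rw [Finset.mem_biUnion]
      set r : ℕ := ∏ p ∈ gp a c, p with hr
      have hr1 : 1 ≤ r := by
        refine Nat.one_le_iff_ne_zero.mpr ?_
        rw [hr, Finset.prod_ne_zero_iff]
        intro p hp
        have h4 := (Finset.mem_filter.mp hp).1
        exact (Nat.prime_of_mem_primeFactors h4).ne_zero
      have hrR : r ≤ R := Nat.le_floor hc2.le
      refine ⟨r, Finset.mem_Icc.mpr ⟨hr1, hrR⟩, ?_⟩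
      rw [Finset.mem_biUnion]
      refine ⟨(discr (qp a c)).natAbs, ?_, ?_⟩
      · simp only [TT, Set.Finite.mem_toFinset]
        refine ⟨Nat.one_le_iff_ne_zero.mpr (Int.natAbs_ne_zero.mpr h0), ?_, ?_⟩
        · refine hbd1 _ ?_
          rw [Nat.cast_natAbs, Int.cast_abs]
          exact (hB H a c hH hbox hc1).1
        · intro p hp hpd
          by_cases hpw : (p : ℤ) ∣ wr a
          · exact Dvd.dvd.mul_right (Int.natCast_dvd.mp hpw) r
          · refine Dvd.dvd.mul_left ?_ w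
            rw [hr]
            refine Finset.dvd_prod_of_mem _ ?_
            refine Finset.mem_filter.mpr ⟨?_, hpw⟩
            exact Nat.mem_primeFactors.mpr ⟨hp, hpd, Int.natAbs_ne_zero.mpr h0⟩
      · rcases Int.natAbs_eq (discr (qp a c)) with h4 | h4
        · refine Finset.mem_union_left _ ?_
          simp only [D, Set.Finite.mem_toFinset, Set.mem_ofPred_eq]
          exact h4
        · refine Finset.mem_union_right _ ?_
          simp only [D, Set.Finite.mem_toFinset, Set.mem_ofPred_eq]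
          exact h4
  have hTT : ∀ r ∈ Finset.Icc 1 R, ((TT r).card : ℝ) ≤ C0 * (H : ℝ) ^ (δ / 2) := by
    intro r hr
    obtain ⟨hr1, hr2⟩ := Finset.mem_Icc.mp hr
    have hn1 : 1 ≤ w * r := Nat.one_le_iff_ne_zero.mpr (Nat.mul_ne_zero (by omega) (by omega))
    have hrr : (r : ℝ) ≤ (H : ℝ) ^ (δ / 2) := by
      have h4 : (R : ℝ) ≤ (H : ℝ) ^ (δ / 2) := Nat.floor_le hHe
      have h5 : (r : ℝ) ≤ (R : ℝ) := by exact_mod_cast hr2
      linarith
    have hn2 : ((w * r : ℕ) : ℝ) ≤ B := by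
      push_cast
      have hA0 : (0 : ℝ) ≤ A * (H : ℝ) ^ A := by positivity
      calc (w : ℝ) * (r : ℝ) ≤ (A * (H : ℝ) ^ A) * (H : ℝ) ^ (δ / 2) := by gcongr
        _ = A * (H : ℝ) ^ (A + δ / 2) := by rw [mul_assoc, ← Real.rpow_add hH0]
        _ ≤ (A + δ / 2) * (H : ℝ) ^ (A + δ / 2) := by gcongr; linarith
    have h4 := hR H (w * r) hH hn1 hn2
    have h5 : (T B (w * r)).ncard = (TT r).card := Set.ncard_eq_toFinset_card _ (T_finite B (w * r))
    have h6 : ((T B (w * r)).ncard : ℝ) ≤ C0 * (H : ℝ) ^ (δ / 2) := h4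
    rwa [h5] at h6
  have hcardU : ((U.card : ℕ) : ℝ) ≤ (4 + 8 * C0) * (H : ℝ) ^ δ := by
    have h4 : U.card ≤ 4 + ∑ r ∈ Finset.Icc 1 R, (TT r).card * 8 := by
      refine (Finset.card_union_le _ _).trans ?_
      refine Nat.add_le_add (hDcard 0) ?_
      refine Finset.card_biUnion_le.trans ?_
      refine Finset.sum_le_sum fun r _ => ?_
      refine Finset.card_biUnion_le.trans ?_
      have h5 : ∑ m ∈ TT r, (D (m : ℤ) ∪ D (-(m : ℤ))).card ≤ ∑ m ∈ TT r, 8 := by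
        refine Finset.sum_le_sum fun m _ => ?_
        refine (Finset.card_union_le _ _).trans ?_
        have h6 := hDcard (m : ℤ)
        have h7 := hDcard (-(m : ℤ))
        omega
      rwa [Finset.sum_const, smul_eq_mul] at h5
    have h5 : ((U.card : ℕ) : ℝ) ≤ 4 + ∑ r ∈ Finset.Icc 1 R, ((TT r).card : ℝ) * 8 := by
      exact_mod_cast h4
    have h6 : ∑ r ∈ Finset.Icc 1 R, ((TT r).card : ℝ) * 8 ≤
        ∑ r ∈ Finset.Icc 1 R, (C0 * (H : ℝ) ^ (δ / 2)) * 8 := by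
      refine Finset.sum_le_sum fun r hr => ?_
      have := hTT r hr
      linarith
    rw [Finset.sum_const, Nat.card_Icc, nsmul_eq_mul] at h6
    have h7 : ((R + 1 - 1 : ℕ) : ℝ) ≤ (H : ℝ) ^ (δ / 2) := by
      rw [Nat.add_sub_cancel]
      exact Nat.floor_le hHe
    have h8 : (H : ℝ) ^ (δ / 2) * (H : ℝ) ^ (δ / 2) = (H : ℝ) ^ δ := by
      rw [← Real.rpow_add hH0]
      congr 1
      ring
    have h9 : (1 : ℝ) ≤ (H : ℝ) ^ δ := Real.one_le_rpow hH1 hδ.le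
    have h10 : ((R + 1 - 1 : ℕ) : ℝ) * (C0 * (H : ℝ) ^ (δ / 2) * 8) ≤
        (H : ℝ) ^ (δ / 2) * (C0 * (H : ℝ) ^ (δ / 2) * 8) := by gcongr
    have h11 : (H : ℝ) ^ (δ / 2) * (C0 * (H : ℝ) ^ (δ / 2) * 8) = 8 * C0 * (H : ℝ) ^ δ := by
      rw [← h8]; ring
    nlinarith
  have hfin : ({c : ℤ | |c| ≤ (H : ℤ) ^ 5 ∧ (discr (qp a c) = 0 ∨
      ((∏ p ∈ gp a c, p : ℕ) : ℝ) < (H : ℝ) ^ (δ / 2))}).ncard ≤ U.card := by
    have h4 := Set.ncard_le_ncard hsub (Finset.finite_toSet U)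
    rwa [Set.ncard_coe_finset] at h4
  have h12 : (({c : ℤ | |c| ≤ (H : ℤ) ^ 5 ∧ (discr (qp a c) = 0 ∨
      ((∏ p ∈ gp a c, p : ℕ) : ℝ) < (H : ℝ) ^ (δ / 2))}).ncard : ℝ) ≤ (U.card : ℝ) := by
    exact_mod_cast hfin
  exact h12.trans hcardU

end Pool.Agent.TTC.H30
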