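import Pool.Agent.TTC.StmtsG
import Pool.Agent.Helper36_TTC.MD6

set_option autoImplicit false

/-!
# Squad TTC, row MD7: total degrees
-/

namespace Pool.Agent.TTC.H30

open Polynomial Pool.Agent.TTC.H36

theorem res_td {σ : Type} {k : ℕ} {p q : (MvPolynomial σ ℤ)[X]} (hp : CD k p) (hq : CD k q)
    (a b : ℕ) : (resultant p q a b).totalDegree ≤ (a + b) * k := by
  classical
  have hent : ∀ i j, (sylvester p q a b i j).totalDegree ≤ k := by
    intro i j
    unfold sylvester
    rw [Matrix.of_apply]
    induction j using Fin.addCases with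
    | left j =>
      rw [Fin.addCases_left]
      split_ifs
      · exact hq _
      · simp
    | right j =>
      rw [Fin.addCases_right]
      split_ifs
      · exact hp _
      · simp
  unfold resultant
  rw [Matrix.det_apply]
  refine MvPolynomial.totalDegree_finsetSum_le fun σ' _ => ?_
  have h1 : (∏ i, sylvester p q a b (σ' i) i).totalDegree ≤ (a + b) * k := by
    refine (MvPolynomial.totalDegree_finsetProd _ _).trans ?_
    refine (Finset.sum_le_card_nsmul _ _ k fun i _ => hent _ _).trans ?_
    rw [Finset.card_univ, Fintype.card_fin, smul_eq_mul]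
  rcases Int.units_eq_one_or (Equiv.Perm.sign σ') with h | h
  · rw [h, one_smul]
    exact h1
  · rw [h]
    have : ((-1 : ℤˣ) • ∏ i, sylvester p q a b (σ' i) i) = -∏ i, sylvester p q a b (σ' i) i := by
      simp [Units.smul_def]
    rw [this, MvPolynomial.totalDegree_neg]
    exact h1

theorem td_crit {m k : ℕ} {F : Fin 7 → MvPolynomial (Fin (m + 1)) ℤ}
    (hF : ∀ i, (F i).totalDegree ≤ k) : CD (11 * k) (crit F) := by
  have hq := cd_sext hF
  have h1 := ce_map (cd_der hq)
  have h2 : CE k (C (X : (MvPolynomial (Fin (m + 1)) ℤ)[X]) -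
      (sext F).map (C : MvPolynomial (Fin (m + 1)) ℤ →+* (MvPolynomial (Fin (m + 1)) ℤ)[X])) := by
    intro n
    rw [coeff_sub, sub_eq_add_neg]
    refine cd_add ?_ (cd_neg (ce_map hq n))
    rw [coeff_C]
    split_ifs
    · have := cd_term (σ := Fin (m + 1)) (k := k) (P := 1) (by simp) 1
      simpa using this
    · exact cd_zero k
  exact res_ce h1 h2 5 6

theorem td_natmul {σ : Type} {k : ℕ} (c : ℕ) {P : MvPolynomial σ ℤ} (hP : P.totalDegree ≤ k) :
    ((c : MvPolynomial σ ℤ) * P).totalDegree ≤ k := by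
  refine (MvPolynomial.totalDegree_mul _ _).trans ?_
  rw [td_nat]
  omega

theorem md7 : Md7Stmt := by
  intro m k F hF
  have hq := cd_sext hF
  have h3 := td_crit hF
  refine ⟨(h3 0).trans (Nat.mul_le_mul_right k (by norm_num)), fun j n => ?_⟩
  have h4 : (6 * F 0).totalDegree ≤ k := by
    have := td_natmul 6 (hF 0)
    exact_mod_cast this
  have h5 : ((crit F).coeff 1 + (j : MvPolynomial (Fin (m + 1)) ℤ) * (crit F).coeff 2).totalDegree ≤
      11 * k :=
    (MvPolynomial.totalDegree_add _ _).trans (max_le (h3 1) (td_natmul j (h3 2)))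
  have h6 : (r6 n F).totalDegree ≤ 11 * k := by
    unfold r6
    refine res_td (cd_der hq) (cd_add (cd_der (cd_der hq)) ?_) 5 6
    intro i
    rw [coeff_C_mul]
    exact td_natmul n (hq i)
  unfold e7
  have h7 := MvPolynomial.totalDegree_mul (6 * F 0 * ((crit F).coeff 1 +
    (j : MvPolynomial (Fin (m + 1)) ℤ) * (crit F).coeff 2)) (r6 n F)
  have h8 := MvPolynomial.totalDegree_mul (6 * F 0) ((crit F).coeff 1 +
    (j : MvPolynomial (Fin (m + 1)) ℤ) * (crit F).coeff 2)
  omega

end Pool.Agent.TTC.H30

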